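import Mathlib
import Pool.Agent.H12.ZeroFree

/-! The Fekete-Szego bound is not sharp near the resonance alpha = 0, beta = 3/2. -/

open Complex Metric Set Filter Topology

namespace Pool.Agent.Results.MP_dfd3b8_an.NotSharp

/-- the function g, with the value 1 at the origin -/
noncomputable def g (α β : ℝ) (f : ℂ → ℂ) (z : ℂ) : ℂ :=
  if z = 0 then 1 else α * (f z / z) + β * (z * deriv f z / f z) +
    (1 - α - β) * (1 + z * deriv (deriv f) z / deriv f z)

/-- the class M -/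
def M (α β : ℝ) : Set (ℂ → ℂ) :=
  {f | DifferentiableOn ℂ f (ball 0 1) ∧ f 0 = 0 ∧ deriv f 0 = 1 ∧ ∀ z ∈ ball (0 : ℂ) 1,
    (β ≠ 0 → z ≠ 0 → f z ≠ 0) ∧ (1 - α - β ≠ 0 → deriv f z ≠ 0) ∧ (α + β) / 2 < (g α β f z).re}

/-- the Fekete-Szego functional -/
noncomputable def Φ (f : ℂ → ℂ) (l : ℂ) : ℂ :=
  iteratedDeriv 3 f 0 / 6 - l * (iteratedDeriv 2 f 0 / 2) ^ 2

lemma growth {L : ℂ → ℂ} (hL : DifferentiableOn ℂ L (ball 0 1)) (h0 : L 0 = 0)
    (hd : ∀ z : ℂ, ‖z‖ ≤ 1 / 2 → 0 ≤ (L z).re → ‖z * deriv L z‖ ≤ 10) (z : ℂ) (hz : ‖z‖ ≤ 1 / 2) :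
    (L z).re ≤ 2025 := by
  have hsub : closedBall (0 : ℂ) (1 / 2) ⊆ ball 0 1 := closedBall_subset_ball (by norm_num)
  obtain ⟨w, hw, hmax⟩ := (isCompact_closedBall (0 : ℂ) (1 / 2)).exists_isMaxOn
    ⟨0, by simp⟩ (continuous_re.comp_continuousOn (hL.continuousOn.mono hsub))
  refine le_trans (hmax (mem_closedBall_zero_iff.mpr hz)) ?_
  rw [mem_closedBall_zero_iff] at hw
  change (L w).re ≤ 2025
  set A := (L w).re with hA
  by_contra hc
  push Not at hc
  have hApos : 0 < A := by linarith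
  set t₀ : ℝ := 1 / (4 * A) with ht₀
  have ht0 : 0 < t₀ := by positivity
  have ht1 : t₀ ≤ 1 / 4 := by
    rw [ht₀]; apply one_div_le_one_div_of_le (by norm_num); linarith
  have hn : ∀ t : ℝ, 0 ≤ t → ‖(t : ℂ) * w‖ = t * ‖w‖ := fun t ht => by
    rw [norm_mul, norm_real, Real.norm_of_nonneg ht]
  have hn2 : ∀ t ∈ Icc t₀ 1, ‖(t : ℂ) * w‖ ≤ 1 / 2 := fun t ht => by
    rw [hn t (by linarith [ht.1])]
    nlinarith [ht.1, ht.2, norm_nonneg w]
  have hder : ∀ t ∈ Icc t₀ 1, HasDerivAt (fun s : ℝ => (L (s * w)).re)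
      (deriv L (t * w) * w).re t := fun t ht => by
    have h1 : HasDerivAt L (deriv L (t * w)) (t * w) :=
      (hL.differentiableAt (isOpen_ball.mem_nhds
        (hsub (mem_closedBall_zero_iff.mpr (hn2 t ht))))).hasDerivAt
    have h2 := h1.comp (t : ℂ) (hasDerivAt_mul_const w)
    exact h2.real_of_complex
  have key := image_le_of_deriv_right_lt_deriv_boundary' (a := t₀) (b := 1)
    (f := fun s : ℝ => (L (s * w)).re) (f' := fun t => (deriv L (t * w) * w).re)
    (fun t ht => (hder t ht).continuousAt.continuousWithinAt)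
    (fun t ht => (hder t (Ico_subset_Icc_self ht)).hasDerivWithinAt)
    (B := fun t => 1 + 11 * (Real.log t - Real.log t₀)) (B' := fun t => 11 * t⁻¹) ?_ ?_ ?_ ?_
    (x := 1) ⟨by linarith, le_rfl⟩
  · simp only [ofReal_one, one_mul, Real.log_one, zero_sub] at key
    rw [← hA, ← Real.log_inv, ht₀, one_div, inv_inv] at key
    have h1 : Real.log (4 * A) ≤ 4 * Real.sqrt A := by
      have h2 : 4 * A = (2 * Real.sqrt A) ^ 2 := by rw [mul_pow, Real.sq_sqrt hApos.le]; ring
      have h3 := Real.log_le_sub_one_of_pos (x := 2 * Real.sqrt A) (by positivity)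
      rw [h2, Real.log_pow]
      push_cast
      linarith
    have h4 : 45 < Real.sqrt A := Real.lt_sqrt_of_sq_lt (by linarith)
    nlinarith [Real.sq_sqrt hApos.le]
  · have h1 : ‖(t₀ : ℂ) * w‖ ≤ t₀ / 2 := by rw [hn _ ht0.le]; nlinarith
    have h2 := borelCaratheodory_zero (R := 1 / 2) (z := t₀ * w) hApos
      (hL.mono (ball_subset_ball (by norm_num)))
      (fun y hy => hmax (ball_subset_closedBall hy)) (by norm_num)
      (mem_ball_zero_iff.mpr (by linarith)) h0
    have h3 : 2 * A * ‖(t₀ : ℂ) * w‖ / (1 / 2 - ‖(t₀ : ℂ) * w‖) ≤ 1 := by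
      rw [div_le_one (by linarith)]
      have : A * t₀ = 1 / 4 := by rw [ht₀]; field_simp
      nlinarith
    have := re_le_norm (L (t₀ * w))
    simp only [sub_self, mul_zero, add_zero]
    linarith
  · exact fun t ht => (continuousAt_const.add (continuousAt_const.mul
      ((Real.continuousAt_log (by linarith [ht.1])).sub continuousAt_const))).continuousWithinAt
  · intro t ht
    exact ((((Real.hasDerivAt_log (by linarith [ht.1])).sub_const _).const_mul 11).const_add
      1).hasDerivWithinAt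
  · intro t ht hB
    have htp : 0 < t := by linarith [ht.1]
    have h1 : Real.log t₀ ≤ Real.log t := Real.log_le_log ht0 ht.1
    have h2 := hd (t * w) (hn2 t (Ico_subset_Icc_self ht)) (by linarith)
    have h3 := re_le_norm (deriv L (t * w) * w)
    have h4 : ‖(t : ℂ) * w * deriv L (t * w)‖ = t * ‖deriv L (t * w) * w‖ := by
      rw [mul_assoc, norm_mul, norm_real, Real.norm_of_nonneg htp.le, mul_comm w]
    rw [h4] at h2
    rw [← div_eq_mul_inv, lt_div_iff₀ htp]
    nlinarith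

lemma bound {β : ℝ} (hβ : 7 / 5 ≤ β) {f : ℂ → ℂ} (hf : f ∈ M 0 β) :
    ‖Φ f 1‖ ≤ 2 * Real.exp 2025 := by
  obtain ⟨hd, h0, h1, hz⟩ := hf
  have hb0 : ball (0 : ℂ) 1 ∈ 𝓝 (0 : ℂ) := ball_mem_nhds _ one_pos
  have hf0 : ∀ z ∈ ball (0 : ℂ) 1, z ≠ 0 → f z ≠ 0 := fun z h => (hz z h).1 (by linarith)
  have hf1 : ∀ z ∈ ball (0 : ℂ) 1, deriv f z ≠ 0 := fun z h => (hz z h).2.1 (by linarith)
  set F := dslope f 0 with hF
  have hFd : DifferentiableOn ℂ F (ball 0 1) := (differentiableOn_dslope hb0).mpr hd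
  have hzF : ∀ z, z * F z = f z := fun z => by
    have := sub_smul_dslope f 0 z
    simpa [h0] using this
  have hF0 : F 0 = 1 := by rw [hF, dslope_same, h1]
  have hFne : ∀ z ∈ ball (0 : ℂ) 1, F z ≠ 0 := fun z h => by
    by_cases e : z = 0
    · rw [e, hF0]; exact one_ne_zero
    · intro e2
      exact hf0 z h e (by rw [← hzF, e2, mul_zero])
  have hd1 : DifferentiableOn ℂ (deriv f) (ball 0 1) := hd.deriv isOpen_ball
  set Q : ℂ → ℂ := fun z => F z / deriv f z with hQ
  have hQd : DifferentiableOn ℂ Q (ball 0 1) := hFd.div hd1 hf1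
  have hQne : ∀ z ∈ ball (0 : ℂ) 1, Q z ≠ 0 := fun z h => div_ne_zero (hFne z h) (hf1 z h)
  have hQ0 : Q 0 = 1 := by simp [hQ, hF0, h1]
  obtain ⟨L, hL, hL0, he⟩ := Pool.Agent.H12.ZeroFree.exists_log one_pos hQd hQne hQ0
  have hQf : ∀ z ∈ ball (0 : ℂ) 1, z * (Q z * deriv f z) = f z := fun z h => by
    rw [hQ, div_mul_cancel₀ _ (hf1 z h), hzF]
  have hQL : ∀ z ∈ ball (0 : ℂ) 1, deriv Q z = Q z * deriv L z := fun z h => by
    have hn := isOpen_ball.mem_nhds h
    have e : Q =ᶠ[𝓝 z] fun y => exp (L y) := by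
      filter_upwards [hn] with y hy using (he y hy).symm
    rw [e.deriv_eq, (hL.differentiableAt hn).hasDerivAt.cexp.deriv, he z h]
  -- the differential equation
  set G : ℂ → ℂ := fun z => (Q z)⁻¹ + (β - 1) * (z * deriv L z) with hG
  have hGg : ∀ z ∈ ball (0 : ℂ) 1, g 0 β f z = G z := fun z h => by
    by_cases e : z = 0
    · simp [g, hG, e, hQ0]
    have hn := isOpen_ball.mem_nhds h
    have e1 : (fun y => y * (Q y * deriv f y)) =ᶠ[𝓝 z] f := by
      filter_upwards [hn] with y hy using hQf y hy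
    have e2 := ((hasDerivAt_id' z).mul ((hQd.differentiableAt hn).hasDerivAt.mul
      (hd1.differentiableAt hn).hasDerivAt)).deriv
    have e3 := e1.deriv_eq
    have e4 : deriv f z = Q z * deriv f z + z * (Q z * deriv L z * deriv f z +
        Q z * deriv (deriv f) z) := by
      rw [← hQL z h]
      conv_lhs => rw [← e3]
      rw [← one_mul (Q z * deriv f z)]
      exact e2
    have a1 := hQne z h
    have a2 := hf1 z h
    simp only [g, if_neg e, hG]
    rw [← hQf z h]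
    have e5 : z * deriv (deriv f) z / deriv f z = (Q z)⁻¹ - 1 - z * deriv L z := by
      field_simp
      linear_combination -e4
    rw [e5]
    field_simp
    push_cast
    ring
  have hGd : DifferentiableOn ℂ G (ball 0 1) :=
    (hQd.inv hQne).add ((differentiableOn_id.mul (hL.deriv isOpen_ball)).const_mul _)
  have hGb : ∀ z : ℂ, ‖z‖ ≤ 1 / 2 → ‖G z‖ ≤ 3 := fun z h => by
    have h2 := borelCaratheodory_zero (R := 1) (M := 1) (z := z) (f := fun y => 1 - G y) one_pos
      (hGd.const_sub 1) (fun y hy => by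
        have := (hz y hy).2.2
        rw [hGg y hy] at this
        simp only [mem_ofPred_eq, sub_re, one_re]
        linarith) one_pos (mem_ball_zero_iff.mpr (by linarith)) (by simp [hG, hQ0])
    have h3 : 2 * 1 * ‖z‖ / (1 - ‖z‖) ≤ 2 := by
      rw [div_le_iff₀ (by linarith)]; linarith
    have h4 := norm_sub_le (1 : ℂ) (1 - G z)
    rw [sub_sub_cancel, norm_one] at h4
    linarith
  have hre := growth hL hL0 fun z h hp => by
    have hb : z ∈ ball (0 : ℂ) 1 := mem_ball_zero_iff.mpr (by linarith)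
    have h2 : ‖(Q z)⁻¹‖ ≤ 1 := by
      rw [norm_inv, ← he z hb, norm_exp]
      exact inv_le_one_of_one_le₀ (Real.one_le_exp hp)
    have h3 : ((β : ℂ) - 1) * (z * deriv L z) = G z - (Q z)⁻¹ := by simp [hG]
    have h4 : ‖((β : ℂ) - 1) * (z * deriv L z)‖ = (β - 1) * ‖z * deriv L z‖ := by
      rw [norm_mul, ← ofReal_one, ← ofReal_sub, norm_real, Real.norm_of_nonneg (by linarith)]
    have h5 := norm_sub_le (G z) (Q z)⁻¹
    rw [← h3, h4] at h5
    have := hGb z h
    nlinarith [norm_nonneg (z * deriv L z)]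
  have hc := norm_iteratedDeriv_le_of_forall_mem_sphere_norm_le (c := 0) (R := 1 / 2) (f := Q)
    (C := Real.exp 2025) 2 (by norm_num)
    ((hQd.mono (closedBall_subset_ball (by norm_num))).diffContOnCl_ball subset_rfl)
    fun z h => by
      have h2 := mem_sphere_zero_iff_norm.mp h
      rw [← he z (mem_ball_zero_iff.mpr (by linarith)), norm_exp]
      exact Real.exp_le_exp.mpr (hre z h2.le)
  -- coefficients
  clear_value Q
  have e1 : (fun y => y * (Q y * deriv f y)) =ᶠ[𝓝 0] f := by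
    filter_upwards [hb0] with y hy using hQf y hy
  have cQ : ∀ n : ℕ, ContDiffAt ℂ n Q 0 := fun n => (hQd.analyticAt hb0).contDiffAt
  have cf : ∀ n : ℕ, ContDiffAt ℂ n (deriv f) 0 := fun n => (hd1.analyticAt hb0).contDiffAt
  have e2 := (e1.iteratedDeriv 2).eq_of_nhds
  have e3 := (e1.iteratedDeriv 3).eq_of_nhds
  rw [iteratedDeriv_fun_mul contDiffAt_fun_id ((cQ 2).mul (cf 2))] at e2
  rw [iteratedDeriv_fun_mul contDiffAt_fun_id ((cQ 3).mul (cf 3))] at e3
  have e4 := iteratedDeriv_fun_mul (cQ 1) (cf 1)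
  have e5 := iteratedDeriv_fun_mul (cQ 2) (cf 2)
  simp only [Finset.sum_range_succ, Finset.sum_range_zero, ← iteratedDeriv_succ'] at e2 e3 e4 e5
  simp [iteratedDeriv_fun_id, hQ0, h1] at e2 e3 e4 e5
  rw [e4] at e2
  rw [e5] at e3
  have e6 : Φ f 1 = -(1 / 4) * iteratedDeriv 2 Q 0 := by
    unfold Φ
    linear_combination (1 / 12) * e3 - (iteratedDeriv 2 f 0 / 4) * e2
  rw [e6, norm_mul]
  norm_num [Nat.factorial] at hc ⊢
  linarith

theorem result : ∃ α β : ℝ, α + β < 2 ∧ 5 * α + 4 * β < 6 ∧ ∃ (l : ℂ) (B : ℝ),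
    B < max ((2 - α - β) / (6 - 5 * α - 4 * β)) ‖1 - l‖ ∧ ∀ f ∈ M α β, ‖Φ f l‖ ≤ B := by
  have hE : 1 ≤ Real.exp 2025 := Real.one_le_exp (by norm_num)
  set E := Real.exp 2025 with hEdef
  have h1 : 0 < 1 / (20 * E) := by positivity
  have h2 : 1 / (20 * E) ≤ 1 / 20 := one_div_le_one_div_of_le (by norm_num) (by linarith)
  refine ⟨0, 3 / 2 - 1 / (20 * E), by linarith, by linarith, 1, 2 * E, lt_max_of_lt_left ?_,
    fun f hf => bound (by linarith) hf⟩
  rw [lt_div_iff₀ (by linarith)]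
  have : E * (1 / (20 * E)) = 1 / 20 := by field_simp
  nlinarith

end Pool.Agent.Results.MP_dfd3b8_an.NotSharp
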